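import Pool.Agent.X80.GR.Seq

/-!
# From triples to quadruples
-/

set_option autoImplicit false

namespace Pool.Agent.X80.GR

open Finset Pool.Agent.TH138.NF

/-- the rule for the three highest differing digits: the colour given by `χ` if they are monotone,
`false` at a local maximum and `true` at a local minimum -/
def rule (χ : Bool → ℕ → ℕ → ℕ → Bool) (u v w : ℕ) : Bool :=
  if u < v ∧ v < w then χ true u v w
  else if w < v ∧ v < u then χ false w v u
  else decide (v < u)

/-- the colouring of the quadruples -/
def c4 (χ : Bool → ℕ → ℕ → ℕ → Bool) (e : Finset ℕ) : Bool :=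
  rule χ (dl e 0) (dl e 1) (dl e 2)

theorem four {χ : Bool → ℕ → ℕ → ℕ → Bool} {S : Finset ℕ} {β : Bool} (h : Hom 4 (c4 χ) S β)
    (a b c d : ℕ) (hab : a < b) (hbc : b < c) (hcd : c < d) (hd' : d < S.card) :
    rule χ (hd (sq S a) (sq S b)) (hd (sq S b) (sq S c)) (hd (sq S c) (sq S d)) = β := by
  obtain ⟨h1, h2⟩ := hom_apply h (fun i => if i = 0 then a else if i = 1 then b else
    if i = 2 then c else d) (by
      intro i hi
      have : i = 0 ∨ i = 1 ∨ i = 2 := by omega
      rcases this with rfl | rfl | rfl <;> simp [hab, hbc, hcd]) (by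
      intro i hi
      have : i = 0 ∨ i = 1 ∨ i = 2 ∨ i = 3 := by omega
      rcases this with rfl | rfl | rfl | rfl <;> simp <;> omega)
  have e0 := h2 0 (by omega)
  have e1 := h2 1 (by omega)
  have e2 := h2 2 (by omega)
  have e3 := h2 3 (by omega)
  rw [c4, dl, dl, dl, e0, e1, e2, e3] at h1
  simpa using h1

theorem unimodal {α : Type} [LinearOrder α] (δ : ℕ → α) (m : ℕ) (hm : 1 ≤ m)
    (hne : ∀ i, i + 1 < m → δ i ≠ δ (i + 1))
    (hmin : ∀ i, i + 2 < m → ¬ (δ (i + 1) < δ i ∧ δ (i + 1) < δ (i + 2))) :
    ∃ p, p < m ∧ (∀ i j, i < j → j ≤ p → δ i < δ j) ∧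
      ∀ i j, p ≤ i → i < j → j < m → δ j < δ i := by
  classical
  have hex : ∃ i, i < m ∧ (i + 1 = m ∨ δ (i + 1) < δ i) := ⟨m - 1, by omega, Or.inl (by omega)⟩
  obtain ⟨hp1, hp2⟩ := Nat.find_spec hex
  have hp3 : ∀ i, i < Nat.find hex → ¬ (i < m ∧ (i + 1 = m ∨ δ (i + 1) < δ i)) :=
    fun i hi => Nat.find_min hex hi
  refine ⟨Nat.find hex, hp1, ?_, ?_⟩
  · intro i j
    induction j with
    | zero => intro h; omega
    | succ j ih =>
      intro h1 h2
      have h3 := hp3 j (by omega)
      have h4 : δ j < δ (j + 1) := by
        by_contra hcon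
        rw [not_lt] at hcon
        have h5 := lt_of_le_of_ne hcon (hne j (by omega)).symm
        exact h3 ⟨by omega, Or.inr h5⟩
      rcases Nat.lt_or_ge i j with h5 | h5
      · exact (ih h5 (by omega)).trans h4
      · have : i = j := by omega
        subst this
        exact h4
  · have key : ∀ i, Nat.find hex ≤ i → i + 1 < m → δ (i + 1) < δ i := by
      intro i hi
      induction i, hi using Nat.le_induction with
      | base =>
        intro h1
        rcases hp2 with h2 | h2
        · omega
        · exact h2
      | succ i hi ih =>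
        intro h1
        have h2 := ih (by omega)
        have h3 := hmin i (by omega)
        by_contra hcon
        rw [not_lt] at hcon
        exact h3 ⟨h2, lt_of_le_of_ne hcon (hne (i + 1) h1)⟩
    intro i j hi
    induction j with
    | zero => intro h; omega
    | succ j ih =>
      intro h1 h2
      rcases Nat.lt_or_ge i j with h5 | h5
      · exact (key j (by omega) h2).trans (ih h5 (by omega))
      · have : i = j := by omega
        subst this
        exact key i hi h2

theorem base (χ : Bool → ℕ → ℕ → ℕ → Bool) (N n h m : ℕ) (hh : 2 * h ≤ n + 1) (hm : m + 1 = n)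
    (hn : 4 ≤ n)
    (H1 : ∀ (s : Bool) (f : ℕ → ℕ), (∀ i, i < h → f i < N) →
        (∀ i j, i < j → j < h → f i < f j) →
        ∃ i j k, i < j ∧ j < k ∧ k < h ∧ χ s (f i) (f j) (f k) = true)
    (H2 : ∀ (side : ℕ → Bool) (f : ℕ → ℕ), (∀ i, i < m → f i < N) →
        (∀ i j, i < j → j < m → f i < f j) →
        ∃ i j k, i < j ∧ j < k ∧ k < m ∧ side j = side k ∧
          χ (side k) (f i) (f j) (f k) = false) : Good 4 n (2 ^ N) := by
  refine ⟨c4 χ, fun S hS hc β hH => ?_⟩
  have four' := fun a b c d hab hbc hcd hd' => four hH a b c d hab hbc hcd hd'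
  obtain ⟨x, hxdef⟩ : ∃ x, x = sq S := ⟨_, rfl⟩
  rw [← hxdef] at four'
  rw [hc] at four'
  have hx : ∀ i, i + 1 < n → x i < x (i + 1) := by
    intro i hi
    rw [hxdef]
    exact sq_lt (Nat.lt_succ_self i) (by omega)
  have hxN : ∀ i, i < n → x i < 2 ^ N := by
    intro i hi
    rw [hxdef]
    exact mem_range.1 (hS (sq_mem (by omega)))
  obtain ⟨δ, hδ⟩ : ∃ δ : ℕ → ℕ, ∀ i, δ i = hd (x i) (x (i + 1)) := ⟨_, fun i => rfl⟩
  have hδN : ∀ i, i < m → δ i < N := by
    intro i hi
    rw [hδ]
    exact hd_lt (hx i (by omega)) (hxN _ (by omega))
  have hne : ∀ i, i + 1 < m → δ i ≠ δ (i + 1) := by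
    intro i hi
    rw [hδ, hδ]
    exact hd_ne (hx i (by omega)) (hx (i + 1) (by omega))
  have hmax : ∀ a b c, a ≤ c → c < b → b < n → (∀ i, a ≤ i → i < b → δ i ≤ δ c) →
      hd (x a) (x b) = δ c := by
    intro a b c h1 h2 h3 h4
    rw [hδ c]
    apply hd_eq_of_max x n hx a b c h1 h2 h3
    intro i hi1 hi2
    rw [← hδ, ← hδ]
    exact h4 i hi1 hi2
  cases β with
  | false =>
    have hmin : ∀ i, i + 2 < m → ¬ (δ (i + 1) < δ i ∧ δ (i + 1) < δ (i + 2)) := by
      rintro i hi ⟨h1, h2⟩
      have h3 := four' i (i + 1) (i + 2) (i + 3) (by omega) (by omega) (by omega) (by omega)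
      rw [← hδ i, ← hδ (i + 1), ← hδ (i + 2), rule, if_neg (by omega), if_neg (by omega)] at h3
      simp [h1] at h3
    obtain ⟨p, hp, hinc, hdec⟩ := unimodal δ m (by omega) hne hmin
    rcases Nat.lt_or_ge p h with hph | hph
    swap
    · -- long increasing part
      obtain ⟨i, j, k, hij, hjk, hk, hχ⟩ := H1 true δ (fun i hi => hδN i (by omega))
        (fun i j hij hj => hinc i j hij (by omega))
      have h3 := four' i (i + 1) (j + 1) (k + 1) (by omega) (by omega) (by omega) (by omega)
      rw [hmax i (i + 1) i le_rfl (by omega) (by omega) (by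
          intro l h1 h2
          have : l = i := by omega
          rw [this]),
        hmax (i + 1) (j + 1) j (by omega) (by omega) (by omega) (by
          intro l h1 h2
          rcases Nat.lt_or_ge l j with h5 | h5
          · exact (hinc l j h5 (by omega)).le
          · have : l = j := by omega
            rw [this]),
        hmax (j + 1) (k + 1) k (by omega) (by omega) (by omega) (by
          intro l h1 h2
          rcases Nat.lt_or_ge l k with h5 | h5
          · exact (hinc l k h5 (by omega)).le
          · have : l = k := by omega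
            rw [this]), rule, if_pos ⟨hinc i j hij (by omega), hinc j k hjk (by omega)⟩,
        hχ] at h3
      exact absurd h3 (by simp)
    rcases Nat.lt_or_ge (p + 1) h with hph' | hph'
    · -- long decreasing part
      obtain ⟨i, j, k, hij, hjk, hk, hχ⟩ := H1 false (fun i => δ (m - 1 - i))
        (fun i hi => hδN _ (by omega))
        (fun i j hij hj => hdec (m - 1 - j) (m - 1 - i) (by omega) (by omega) (by omega))
      obtain ⟨i', hi'⟩ : ∃ i', i' = m - 1 - i := ⟨_, rfl⟩
      obtain ⟨j', hj'⟩ : ∃ j', j' = m - 1 - j := ⟨_, rfl⟩
      obtain ⟨k', hk'⟩ : ∃ k', k' = m - 1 - k := ⟨_, rfl⟩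
      rw [← hi', ← hj', ← hk'] at hχ
      have h3 := four' k' j' i' (i' + 1) (by omega) (by omega) (by omega) (by omega)
      have d1 : δ i' < δ j' := hdec j' i' (by omega) (by omega) (by omega)
      have d2 : δ j' < δ k' := hdec k' j' (by omega) (by omega) (by omega)
      rw [hmax k' j' k' le_rfl (by omega) (by omega) (by
          intro l h1 h2
          rcases Nat.lt_or_ge k' l with h5 | h5
          · exact (hdec k' l (by omega) h5 (by omega)).le
          · have : l = k' := by omega
            rw [this]),
        hmax j' i' j' le_rfl (by omega) (by omega) (by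
          intro l h1 h2
          rcases Nat.lt_or_ge j' l with h5 | h5
          · exact (hdec j' l (by omega) h5 (by omega)).le
          · have : l = j' := by omega
            rw [this]),
        hmax i' (i' + 1) i' le_rfl (by omega) (by omega) (by
          intro l h1 h2
          have : l = i' := by omega
          rw [this]), rule, if_neg (by omega), if_pos ⟨d1, d2⟩, hχ] at h3
      exact absurd h3 (by simp)
    · -- `p + 1 = h`
      obtain ⟨i, j, k, hij, hjk, hk, hχ⟩ := H1 true δ (fun i hi => hδN i (by omega))
        (fun i j hij hj => hinc i j hij (by omega))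
      have h3 := four' i (i + 1) (j + 1) (k + 1) (by omega) (by omega) (by omega) (by omega)
      rw [hmax i (i + 1) i le_rfl (by omega) (by omega) (by
          intro l h1 h2
          have : l = i := by omega
          rw [this]),
        hmax (i + 1) (j + 1) j (by omega) (by omega) (by omega) (by
          intro l h1 h2
          rcases Nat.lt_or_ge l j with h5 | h5
          · exact (hinc l j h5 (by omega)).le
          · have : l = j := by omega
            rw [this]),
        hmax (j + 1) (k + 1) k (by omega) (by omega) (by omega) (by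
          intro l h1 h2
          rcases Nat.lt_or_ge l k with h5 | h5
          · exact (hinc l k h5 (by omega)).le
          · have : l = k := by omega
            rw [this]), rule, if_pos ⟨hinc i j hij (by omega), hinc j k hjk (by omega)⟩,
        hχ] at h3
      exact absurd h3 (by simp)
  | true =>
    have hmaxi : ∀ i, i + 2 < m → ¬ (δ i < δ (i + 1) ∧ δ (i + 2) < δ (i + 1)) := by
      rintro i hi ⟨h1, h2⟩
      have h3 := four' i (i + 1) (i + 2) (i + 3) (by omega) (by omega) (by omega) (by omega)
      rw [← hδ i, ← hδ (i + 1), ← hδ (i + 2), rule, if_neg (by omega), if_neg (by omega)] at h3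
      simp only [decide_eq_true_eq] at h3
      omega
    obtain ⟨q, hq, hdec, hinc⟩ := unimodal (α := ℕᵒᵈ) (fun i => OrderDual.toDual (δ i)) m (by omega)
      (fun i hi => hne i hi) (fun i hi => hmaxi i hi)
    have hdec' : ∀ i j, i < j → j ≤ q → δ j < δ i := fun i j h1 h2 => hdec i j h1 h2
    have hinc' : ∀ i j, q ≤ i → i < j → j < m → δ i < δ j := fun i j h1 h2 h3 => hinc i j h1 h2 h3
    have hdist : ∀ i j, i < j → j < m → δ i ≠ δ j := by
      intro i j hij hj heq
      rcases Nat.lt_or_ge q i with h1 | h1
      · exact (hinc' i j h1.le hij hj).ne heq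
      rcases Nat.lt_or_ge q j with h2 | h2
      swap
      · exact (hdec' i j hij h2).ne heq.symm
      have h3 : hd (x i) (x j) = δ i := by
        apply hmax i j i le_rfl hij (by omega)
        intro l h4 h5
        rcases Nat.lt_or_ge q l with h6 | h6
        · rw [heq]
          exact (hinc' l j h6.le h5 hj).le
        · rcases Nat.lt_or_ge i l with h7 | h7
          · exact (hdec' i l h7 h6).le
          · have : l = i := by omega
            rw [this]
      have h4 := hd_ne (lt_of_step x n hx i j hij (by omega)) (hx j (by omega))
      rw [h3, ← hδ j] at h4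
      exact h4 heq
    obtain ⟨V, hV⟩ : ∃ V, V = (range m).image δ := ⟨_, rfl⟩
    have hVc : V.card = m := by
      rw [hV, Finset.card_image_of_injOn, card_range]
      intro i hi j hj hij
      simp only [coe_range, Set.mem_Iio] at hi hj
      rcases lt_trichotomy i j with h | h | h
      · exact absurd hij (hdist i j h hj)
      · exact h
      · exact absurd hij.symm (hdist j i h hi)
    have hidx : ∀ j, j < m → ∃ i, i < m ∧ δ i = sq V j := by
      intro j hj
      have h1 : sq V j ∈ V := sq_mem (by omega)
      rw [hV] at h1
      obtain ⟨i, hi, h2⟩ := mem_image.1 h1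
      rw [← hV] at h2
      exact ⟨i, mem_range.1 hi, h2⟩
    choose! idx hidx1 hidx2 using hidx
    obtain ⟨i, j, k, hij, hjk, hk, hside, hχ⟩ := H2 (fun j => decide (q ≤ idx j)) (sq V)
      (fun i hi => by
        rw [← hidx2 i hi]
        exact hδN _ (hidx1 i hi))
      (fun i j hij hj => sq_lt hij (by omega))
    have hi' := hidx1 i (by omega)
    have hj' := hidx1 j (by omega)
    have hk' := hidx1 k (by omega)
    have d1 : δ (idx i) < δ (idx j) := by
      rw [hidx2 i (by omega), hidx2 j (by omega)]
      exact sq_lt hij (by omega)
    have d2 : δ (idx j) < δ (idx k) := by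
      rw [hidx2 j (by omega), hidx2 k (by omega)]
      exact sq_lt hjk (by omega)
    rw [← hidx2 i (by omega), ← hidx2 j (by omega), ← hidx2 k (by omega)] at hχ
    simp only [decide_eq_decide] at hside
    obtain ⟨i', ei⟩ : ∃ i', i' = idx i := ⟨_, rfl⟩
    obtain ⟨j', ej⟩ : ∃ j', j' = idx j := ⟨_, rfl⟩
    obtain ⟨k', ek⟩ : ∃ k', k' = idx k := ⟨_, rfl⟩
    rw [← ei] at hi' d1 hχ
    rw [← ej] at hj' d1 d2 hχ hside
    rw [← ek] at hk' d2 hχ hside
    by_cases hqk : q ≤ k'
    · have hqj : q ≤ j' := hside.2 hqk
      rw [decide_eq_true hqk] at hχ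
      have o1 : j' < k' := by
        by_contra hcon
        rcases Nat.lt_or_ge k' j' with h | h
        · have := hinc' k' j' hqk h hj'
          omega
        · have : j' = k' := by omega
          rw [this] at d2
          omega
      have o2 : i' < j' := by
        by_contra hcon
        rcases Nat.lt_or_ge j' i' with h | h
        · have := hinc' j' i' hqj h hi'
          omega
        · have : i' = j' := by omega
          rw [this] at d1
          omega
      have h3 := four' i' (i' + 1) (j' + 1) (k' + 1) (by omega) (by omega) (by omega) (by omega)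
      rw [hmax i' (i' + 1) i' le_rfl (by omega) (by omega) (by
          intro l h1 h2
          have : l = i' := by omega
          rw [this]),
        hmax (i' + 1) (j' + 1) j' (by omega) (by omega) (by omega) (by
          intro l h1 h2
          rcases Nat.lt_or_ge q l with h4 | h4
          · rcases Nat.lt_or_ge l j' with h5 | h5
            · exact (hinc' l j' h4.le h5 hj').le
            · have : l = j' := by omega
              rw [this]
          · have := hdec' i' l (by omega) h4
            omega),
        hmax (j' + 1) (k' + 1) k' (by omega) (by omega) (by omega) (by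
          intro l h1 h2
          rcases Nat.lt_or_ge l k' with h5 | h5
          · exact (hinc' l k' (by omega) h5 hk').le
          · have : l = k' := by omega
            rw [this]), rule, if_pos ⟨d1, d2⟩, hχ] at h3
      exact absurd h3 (by simp)
    · have hqj : ¬ q ≤ j' := fun h => hqk (hside.1 h)
      rw [decide_eq_false hqk] at hχ
      have o1 : k' < j' := by
        by_contra hcon
        rcases Nat.lt_or_ge j' k' with h | h
        · have := hdec' j' k' h (by omega)
          omega
        · have : j' = k' := by omega
          rw [this] at d2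
          omega
      have o2 : j' < i' := by
        by_contra hcon
        rcases Nat.lt_or_ge i' j' with h | h
        · have := hdec' i' j' h (by omega)
          omega
        · have : i' = j' := by omega
          rw [this] at d1
          omega
      have h3 := four' k' j' i' (i' + 1) (by omega) (by omega) (by omega) (by omega)
      rw [hmax k' j' k' le_rfl (by omega) (by omega) (by
          intro l h1 h2
          rcases Nat.lt_or_ge k' l with h5 | h5
          · exact (hdec' k' l h5 (by omega)).le
          · have : l = k' := by omega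
            rw [this]),
        hmax j' i' j' le_rfl (by omega) (by omega) (by
          intro l h1 h2
          rcases Nat.lt_or_ge q l with h4 | h4
          · have := hinc' l i' h4.le h2 hi'
            omega
          · rcases Nat.lt_or_ge j' l with h5 | h5
            · exact (hdec' j' l h5 h4).le
            · have : l = j' := by omega
              rw [this]),
        hmax i' (i' + 1) i' le_rfl (by omega) (by omega) (by
          intro l h1 h2
          have : l = i' := by omega
          rw [this]), rule, if_neg (by omega), if_pos ⟨d1, d2⟩, hχ] at h3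
      exact absurd h3 (by simp)

end Pool.Agent.X80.GR
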