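import Pool.Agent.X80.GR.Prob

/-!
# Two colourings of the triples of levels without large configurations
-/

set_option autoImplicit false

namespace Pool.Agent.X80.GR

open Finset

/-- the triples (side, smallest, middle, largest element) of one event -/
def ev {m N : ℕ} (side : Fin m → Bool) (f : Fin m → Fin N) :
    Finset (Bool × Fin N × Fin N × Fin N) :=
  (trip m side).image fun t => (side t.2.2, f t.1, f t.2.1, f t.2.2)

theorem card_ev {m N : ℕ} (side : Fin m → Bool) (f : Fin m → Fin N) (hf : StrictMono f) :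
    (ev side f).card = (trip m side).card := by
  apply Finset.card_image_of_injective
  rintro ⟨a, b, c⟩ ⟨a', b', c'⟩ h
  simp only [Prod.mk.injEq] at h
  obtain ⟨-, h1, h2, h3⟩ := h
  rw [hf.injective h1, hf.injective h2, hf.injective h3]

theorem exists_chi (N h m : ℕ) (p q : ℝ) (hp : 0 < p) (hq : 0 < q) (hpq : p + q = 1)
    (hsum : 2 * (N : ℝ) ^ h * q ^ ((h : ℝ) * (h - 1) * (h - 2) / 6) +
      (2 * (N : ℝ)) ^ m * p ^ ((m : ℝ) * (m - 1) * (2 * m - 7) / 24) < 1) :
    ∃ χ : Bool → ℕ → ℕ → ℕ → Bool,
      (∀ (s : Bool) (f : ℕ → ℕ), (∀ i, i < h → f i < N) →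
        (∀ i j, i < j → j < h → f i < f j) →
        ∃ i j k, i < j ∧ j < k ∧ k < h ∧ χ s (f i) (f j) (f k) = true) ∧
      (∀ (side : ℕ → Bool) (f : ℕ → ℕ), (∀ i, i < m → f i < N) →
        (∀ i j, i < j → j < m → f i < f j) →
        ∃ i j k, i < j ∧ j < k ∧ k < m ∧ side j = side k ∧
          χ (side k) (f i) (f j) (f k) = false) := by
  classical
  have hp1 : p ≤ 1 := by linarith
  have hq1 : q ≤ 1 := by linarith
  obtain ⟨χ, hχ⟩ := exists_avoid (I := Bool × Fin N × Fin N × Fin N)
    (K := (Bool × {f : Fin h → Fin N // StrictMono f}) ⊕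
      ((Fin m → Bool) × {f : Fin m → Fin N // StrictMono f}))
    (fun b => if b then p else q) (by intro b; cases b <;> simp [hp.le, hq.le]) (by simp [hpq])
    (Sum.elim (fun k => ev (fun _ => k.1) k.2.1) (fun k => ev k.1 k.2.1))
    (Sum.elim (fun _ => false) (fun _ => true)) (by
      rw [Fintype.sum_sum_type]
      refine lt_of_le_of_lt (add_le_add ?_ ?_) hsum
      · have : ∀ k : Bool × {f : Fin h → Fin N // StrictMono f},
            (if (Sum.elim (fun _ => false) (fun _ => true) (Sum.inl k :
              (Bool × {f : Fin h → Fin N // StrictMono f}) ⊕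
              ((Fin m → Bool) × {f : Fin m → Fin N // StrictMono f})) : Bool) then p else q) ^
            ((Sum.elim (fun k => ev (fun _ => k.1) k.2.1) (fun k => ev k.1 k.2.1)
              (Sum.inl k : (Bool × {f : Fin h → Fin N // StrictMono f}) ⊕
              ((Fin m → Bool) × {f : Fin m → Fin N // StrictMono f}))).card) ≤
            q ^ ((h : ℝ) * (h - 1) * (h - 2) / 6) := by
          intro k
          simp only [Sum.elim_inl, Bool.false_eq_true, if_false]
          rw [← Real.rpow_natCast]
          apply Real.rpow_le_rpow_of_exponent_ge hq hq1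
          rw [card_ev _ _ k.2.2]
          exact card_trip_const h _ k.1 (fun _ => rfl)
        refine (Finset.sum_le_card_nsmul _ _ _ (fun k _ => this k)).trans ?_
        rw [nsmul_eq_mul]
        apply mul_le_mul_of_nonneg_right _ (by positivity)
        rw [Finset.card_univ, Fintype.card_prod, Fintype.card_bool]
        have h2 : Fintype.card {f : Fin h → Fin N // StrictMono f} ≤ N ^ h := by
          refine (Fintype.card_subtype_le _).trans ?_
          simp
        push_cast
        have : (Fintype.card {f : Fin h → Fin N // StrictMono f} : ℝ) ≤ (N : ℝ) ^ h := by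
          exact_mod_cast h2
        linarith
      · have : ∀ k : (Fin m → Bool) × {f : Fin m → Fin N // StrictMono f},
            (if (Sum.elim (fun _ => false) (fun _ => true) (Sum.inr k :
              (Bool × {f : Fin h → Fin N // StrictMono f}) ⊕
              ((Fin m → Bool) × {f : Fin m → Fin N // StrictMono f})) : Bool) then p else q) ^
            ((Sum.elim (fun k => ev (fun _ => k.1) k.2.1) (fun k => ev k.1 k.2.1)
              (Sum.inr k : (Bool × {f : Fin h → Fin N // StrictMono f}) ⊕
              ((Fin m → Bool) × {f : Fin m → Fin N // StrictMono f}))).card) ≤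
            p ^ ((m : ℝ) * (m - 1) * (2 * m - 7) / 24) := by
          intro k
          simp only [Sum.elim_inr, if_true]
          rw [← Real.rpow_natCast]
          apply Real.rpow_le_rpow_of_exponent_ge hp hp1
          rw [card_ev _ _ k.2.2]
          exact card_trip_half m _
        refine (Finset.sum_le_card_nsmul _ _ _ (fun k _ => this k)).trans ?_
        rw [nsmul_eq_mul]
        apply mul_le_mul_of_nonneg_right _ (by positivity)
        rw [Finset.card_univ, Fintype.card_prod]
        have h2 : Fintype.card {f : Fin m → Fin N // StrictMono f} ≤ N ^ m := by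
          refine (Fintype.card_subtype_le _).trans ?_
          simp
        have h3 : Fintype.card (Fin m → Bool) = 2 ^ m := by simp
        rw [h3, mul_pow]
        push_cast
        have : (Fintype.card {f : Fin m → Fin N // StrictMono f} : ℝ) ≤ (N : ℝ) ^ m := by
          exact_mod_cast h2
        exact mul_le_mul_of_nonneg_left this (by positivity))
  refine ⟨fun s a b c => if hh : a < N ∧ b < N ∧ c < N then
    χ (s, ⟨a, hh.1⟩, ⟨b, hh.2.1⟩, ⟨c, hh.2.2⟩) else false, ?_, ?_⟩
  · intro s f hf hm
    obtain ⟨i, hi, hc⟩ := hχ (Sum.inl (s, ⟨fun i => ⟨f i, hf i i.2⟩, fun i j hij => by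
      rw [Fin.lt_def]
      exact hm i j hij j.2⟩))
    simp only [Sum.elim_inl, ev, mem_image, trip, mem_filter, mem_univ, true_and] at hi hc
    obtain ⟨⟨i, j, k⟩, ⟨h1, h2, -⟩, rfl⟩ := hi
    refine ⟨i, j, k, h1, h2, k.2, ?_⟩
    simp only
    rw [dif_pos ⟨hf _ i.2, hf _ j.2, hf _ k.2⟩]
    simpa using hc
  · intro side f hf hm
    obtain ⟨i, hi, hc⟩ := hχ (Sum.inr (fun i => side i, ⟨fun i => ⟨f i, hf i i.2⟩, fun i j hij => by
      rw [Fin.lt_def]
      exact hm i j hij j.2⟩))
    simp only [Sum.elim_inr, ev, mem_image, trip, mem_filter, mem_univ, true_and] at hi hc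
    obtain ⟨⟨i, j, k⟩, ⟨h1, h2, h3⟩, rfl⟩ := hi
    refine ⟨i, j, k, h1, h2, k.2, h3, ?_⟩
    simp only
    rw [dif_pos ⟨hf _ i.2, hf _ j.2, hf _ k.2⟩]
    simpa using hc

end Pool.Agent.X80.GR
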