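import Pool.Agent.X80.GR.Step
import Pool.Agent.X80.GR.Chi
import Pool.Agent.TH138.NF.Asym

/-!
# The constant `log_2 φ / 12`
-/

set_option autoImplicit false

namespace Pool.Agent.X80.GR

open Finset Pool.Agent.TH138.NF

/-- the binary logarithm of the golden ratio -/
noncomputable def L : ℝ := Real.logb 2 Real.goldenRatio

theorem two_L : (2 : ℝ) ^ L = Real.goldenRatio :=
  Real.rpow_logb (by norm_num) (by norm_num) Real.goldenRatio_pos

theorem L_pos : 0 < L := Real.logb_pos (by norm_num) Real.one_lt_goldenRatio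

theorem L_lt_one : L < 1 := by
  rw [L, Real.logb_lt_iff_lt_rpow (by norm_num) Real.goldenRatio_pos, Real.rpow_one]
  exact Real.goldenRatio_lt_two

theorem golden : (2 : ℝ) ^ (-L) + (2 : ℝ) ^ (-(2 * L)) = 1 := by
  have h0 := Real.goldenRatio_pos
  have h1 : (2 : ℝ) ^ (-L) = Real.goldenRatio⁻¹ := by
    rw [Real.rpow_neg (by norm_num), two_L]
  have h2 : (2 : ℝ) ^ (-(2 * L)) = (Real.goldenRatio ^ 2)⁻¹ := by
    rw [Real.rpow_neg (by norm_num), mul_comm, Real.rpow_mul (by norm_num), two_L]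
    norm_num
  rw [h1, h2]
  have h3 := Real.goldenRatio_sq
  have h4 : Real.goldenRatio ^ 2 ≠ 0 := by positivity
  have h5 : Real.goldenRatio⁻¹ = Real.goldenRatio * (Real.goldenRatio ^ 2)⁻¹ := by
    rw [pow_two, mul_inv, ← mul_assoc, mul_inv_cancel₀ h0.ne', one_mul]
  rw [h5, ← add_one_mul, ← h3, mul_inv_cancel₀ h4]

theorem good_four (c : ℝ) (hc0 : 0 < c) (hc : c < L / 12) : ∃ n₀ : ℕ, ∀ n : ℕ, n₀ ≤ n →
    ∀ N : ℕ, (N : ℝ) ≤ 2 ^ (c * (n : ℝ) ^ 2 + 1) → Good 4 n (2 ^ N) := by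
  obtain ⟨d, hd⟩ : ∃ d, d = L / 12 - c := ⟨_, rfl⟩
  have hd0 : 0 < d := by rw [hd]; linarith
  obtain ⟨n₁, hn₁⟩ := exists_nat_gt (5 / d)
  refine ⟨n₁ + 10, fun n hn N hN => ?_⟩
  have hL1 := L_lt_one
  have hL0 := L_pos
  obtain ⟨h, hh⟩ : ∃ h, h = (n + 1) / 2 := ⟨_, rfl⟩
  obtain ⟨m, hm⟩ : ∃ m, m + 1 = n := ⟨n - 1, by omega⟩
  have hm5 : 5 < d * m := by
    have : (n₁ : ℝ) ≤ m := by exact_mod_cast (by omega : n₁ ≤ m)
    rw [div_lt_iff₀ hd0] at hn₁
    nlinarith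
  have hm1 : (1 : ℝ) ≤ m := by exact_mod_cast (by omega : 1 ≤ m)
  have hnR : (n : ℝ) = m + 1 := by rw [← hm]; push_cast; ring
  have hn2h : (n : ℝ) ≤ 2 * h := by exact_mod_cast (by omega : n ≤ 2 * h)
  have hh1 : (1 : ℝ) ≤ h := by exact_mod_cast (by omega : 1 ≤ h)
  have hh5 : 5 < 4 * d * h := by nlinarith
  obtain ⟨χ, H1, H2⟩ := exists_chi N h m ((2 : ℝ) ^ (-L)) ((2 : ℝ) ^ (-(2 * L)))
    (by positivity) (by positivity) golden (by
      have t1 : 2 * (N : ℝ) ^ h * ((2 : ℝ) ^ (-(2 * L))) ^ ((h : ℝ) * (h - 1) * (h - 2) / 6) ≤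
          1 / 4 := by
        have e1 : (N : ℝ) ^ h ≤ (2 : ℝ) ^ ((c * (n : ℝ) ^ 2 + 1) * h) := by
          rw [Real.rpow_mul_natCast (by norm_num)]
          exact pow_le_pow_left₀ (by positivity) hN h
        rw [← Real.rpow_mul (by norm_num)]
        calc 2 * (N : ℝ) ^ h * (2 : ℝ) ^ (-(2 * L) * ((h : ℝ) * (h - 1) * (h - 2) / 6))
            ≤ 2 * (2 : ℝ) ^ ((c * (n : ℝ) ^ 2 + 1) * h) *
              (2 : ℝ) ^ (-(2 * L) * ((h : ℝ) * (h - 1) * (h - 2) / 6)) := by gcongr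
          _ = (2 : ℝ) ^ (1 + (c * (n : ℝ) ^ 2 + 1) * h +
              -(2 * L) * ((h : ℝ) * (h - 1) * (h - 2) / 6)) := by
              rw [Real.rpow_add (by norm_num), Real.rpow_add (by norm_num), Real.rpow_one]
          _ ≤ (2 : ℝ) ^ (-2 : ℝ) := by
              apply Real.rpow_le_rpow_of_exponent_le (by norm_num)
              have f1 : c * (n : ℝ) ^ 2 ≤ c * (4 * (h : ℝ) ^ 2) := by
                apply mul_le_mul_of_nonneg_left _ hc0.le
                nlinarith [Nat.cast_nonneg (α := ℝ) n]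
              have f2 : (c * (n : ℝ) ^ 2 + 1) * h ≤ (c * (4 * (h : ℝ) ^ 2) + 1) * h :=
                mul_le_mul_of_nonneg_right (by linarith) (by linarith)
              have f3 : L * (h : ℝ) ^ 2 ≤ (h : ℝ) ^ 2 := by nlinarith [sq_nonneg (h : ℝ)]
              have f4 : (h : ℝ) ≤ (h : ℝ) ^ 2 := by nlinarith
              have f5 : 5 * (h : ℝ) ^ 2 ≤ 4 * d * h * (h : ℝ) ^ 2 :=
                mul_le_mul_of_nonneg_right hh5.le (sq_nonneg _)
              have f6 : L = 12 * (c + d) := by rw [hd]; ring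
              have f7 : 1 + (c * (4 * (h : ℝ) ^ 2) + 1) * h +
                  -(2 * L) * ((h : ℝ) * (h - 1) * (h - 2) / 6) =
                  1 + h + L * (h : ℝ) ^ 2 - (2 / 3) * L * h - 4 * d * h * (h : ℝ) ^ 2 := by
                rw [f6]; ring
              have f8 : 0 ≤ (2 / 3) * L * (h : ℝ) := by positivity
              nlinarith
          _ = 1 / 4 := by norm_num [Real.rpow_neg]
      have t2 : (2 * (N : ℝ)) ^ m * ((2 : ℝ) ^ (-L)) ^ ((m : ℝ) * (m - 1) * (2 * m - 7) / 24) ≤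
          1 / 4 := by
        have e1 : (2 * (N : ℝ)) ^ m ≤ (2 : ℝ) ^ ((c * (n : ℝ) ^ 2 + 2) * m) := by
          rw [Real.rpow_mul_natCast (by norm_num)]
          apply pow_le_pow_left₀ (by positivity)
          calc 2 * (N : ℝ) ≤ 2 * 2 ^ (c * (n : ℝ) ^ 2 + 1) := by gcongr
            _ = (2 : ℝ) ^ (c * (n : ℝ) ^ 2 + 2) := by
                rw [show c * (n : ℝ) ^ 2 + 2 = 1 + (c * (n : ℝ) ^ 2 + 1) by ring,
                  Real.rpow_add (by norm_num) 1, Real.rpow_one]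
        rw [← Real.rpow_mul (by norm_num)]
        calc (2 * (N : ℝ)) ^ m * (2 : ℝ) ^ (-L * ((m : ℝ) * (m - 1) * (2 * m - 7) / 24))
            ≤ (2 : ℝ) ^ ((c * (n : ℝ) ^ 2 + 2) * m) *
              (2 : ℝ) ^ (-L * ((m : ℝ) * (m - 1) * (2 * m - 7) / 24)) := by gcongr
          _ = (2 : ℝ) ^ ((c * (n : ℝ) ^ 2 + 2) * m +
              -L * ((m : ℝ) * (m - 1) * (2 * m - 7) / 24)) := by
              rw [Real.rpow_add (by norm_num)]
          _ ≤ (2 : ℝ) ^ (-2 : ℝ) := by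
              apply Real.rpow_le_rpow_of_exponent_le (by norm_num)
              have f6 : L = 12 * (c + d) := by rw [hd]; ring
              have hc1 : c < 1 / 12 := by linarith
              have f7 : (c * (n : ℝ) ^ 2 + 2) * m +
                  -L * ((m : ℝ) * (m - 1) * (2 * m - 7) / 24) =
                  -(d * m) * (m : ℝ) ^ 2 + m * (2 * c * m + c + 2 + 9 * L * m / 24 - 7 * L / 24) := by
                rw [hnR, f6]; ring
              rw [f7]
              have f8 : 5 * (m : ℝ) ^ 2 ≤ (d * m) * (m : ℝ) ^ 2 :=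
                mul_le_mul_of_nonneg_right hm5.le (sq_nonneg _)
              have f9 : 2 * c * m + c + 2 + 9 * L * m / 24 - 7 * L / 24 ≤ 3 * m := by nlinarith
              have f10 : m * (2 * c * m + c + 2 + 9 * L * m / 24 - 7 * L / 24) ≤ m * (3 * m) :=
                mul_le_mul_of_nonneg_left f9 (by linarith)
              nlinarith
          _ = 1 / 4 := by norm_num [Real.rpow_neg]
      linarith)
  exact base χ N n h m (by omega) hm (by omega) H1 H2

theorem good_all (s : ℕ) : ∀ c : ℝ, c < L / 12 → ∃ n₀ : ℕ, ∀ n : ℕ, n₀ ≤ n →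
    ∃ N : ℕ, tow (s + 2) (c * (n : ℝ) ^ 2) ≤ N ∧ Good (s + 4) n N := by
  induction s with
  | zero =>
    intro c hc
    have hL0 := L_pos
    obtain ⟨n₀, h⟩ := good_four (max c (L / 24)) (lt_of_lt_of_le (by linarith) (le_max_right _ _))
      (max_lt hc (by linarith))
    refine ⟨n₀, fun n hn => ⟨2 ^ ⌈(2 : ℝ) ^ (max c (L / 24) * (n : ℝ) ^ 2)⌉₊, ?_, h n hn _ ?_⟩⟩
    · show (2 : ℝ) ^ ((2 : ℝ) ^ (c * (n : ℝ) ^ 2)) ≤ _
      push_cast
      refine le_trans ?_ (Real.rpow_natCast 2 _).le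
      apply Real.rpow_le_rpow_of_exponent_le (by norm_num)
      refine le_trans ?_ (Nat.le_ceil _)
      apply Real.rpow_le_rpow_of_exponent_le (by norm_num)
      exact mul_le_mul_of_nonneg_right (le_max_left _ _) (sq_nonneg _)
    · have h1 := (Nat.ceil_lt_add_one (a := (2 : ℝ) ^ (max c (L / 24) * (n : ℝ) ^ 2))
        (by positivity)).le
      refine h1.trans ?_
      rw [Real.rpow_add (by norm_num), Real.rpow_one]
      have h2 : (1 : ℝ) ≤ (2 : ℝ) ^ (max c (L / 24) * (n : ℝ) ^ 2) := by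
        apply Real.one_le_rpow (by norm_num)
        exact mul_nonneg (le_trans (by linarith) (le_max_right _ _)) (sq_nonneg _)
      linarith
  | succ s ih =>
    intro c hc
    have hL0 := L_pos
    have hL1 := L_lt_one
    obtain ⟨c₁, hc₁⟩ : ∃ c₁, c₁ = max ((c + L / 12) / 2) (L / 24) := ⟨_, rfl⟩
    have hc₁0 : 0 < c₁ := by rw [hc₁]; exact lt_of_lt_of_le (by linarith) (le_max_right _ _)
    have hc₁1 : c₁ < L / 12 := by rw [hc₁]; exact max_lt (by linarith) (by linarith)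
    have hcc : c < c₁ := by rw [hc₁]; exact lt_of_lt_of_le (by linarith) (le_max_left _ _)
    obtain ⟨n₁, h⟩ := ih c₁ hc₁1
    obtain ⟨n₂, hn₂⟩ := exists_nat_gt (2 * (s + 4) / (c₁ - c))
    refine ⟨n₁ + n₂ + (s + 4), fun n hn => ?_⟩
    obtain ⟨m, hm⟩ : ∃ m, m + (s + 4) = n := ⟨n - (s + 4), by omega⟩
    obtain ⟨N, hN1, hN2⟩ := h m (by omega)
    refine ⟨2 ^ N, ?_, ?_⟩
    · push_cast
      show (2 : ℝ) ^ tow (s + 2) (c * (n : ℝ) ^ 2) ≤ _
      refine le_trans ?_ (Real.rpow_natCast 2 _).le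
      apply Real.rpow_le_rpow_of_exponent_le (by norm_num)
      refine (tow_mono (s + 2) ?_).trans hN1
      have h1 : (m : ℝ) = n - (s + 4) := by rw [← hm]; push_cast; ring
      rw [h1]
      rw [div_lt_iff₀ (by linarith)] at hn₂
      have h2 : (n₂ : ℝ) ≤ n := by exact_mod_cast (by omega : n₂ ≤ n)
      have h3 : 2 * ((s : ℝ) + 4) ≤ n * (c₁ - c) := by nlinarith
      have h4 : (0 : ℝ) ≤ n := Nat.cast_nonneg n
      have h5 : 2 * ((s : ℝ) + 4) * n ≤ n * (c₁ - c) * n := mul_le_mul_of_nonneg_right h3 h4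
      have h6 : c₁ * (2 * ((s : ℝ) + 4) * n) ≤ 2 * ((s : ℝ) + 4) * n := by
        have : 0 ≤ 2 * ((s : ℝ) + 4) * n := by positivity
        nlinarith
      nlinarith [mul_nonneg hc₁0.le (sq_nonneg ((s : ℝ) + 4))]
    · have h1 := step (s + 4) m N (by omega) hN2
      rw [hm] at h1
      exact h1

end Pool.Agent.X80.GR
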