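import Mathlib

/-!
# Biased random colourings of triples and the number of constrained triples
-/

set_option autoImplicit false

namespace Pool.Agent.X80.GR

open Finset

/-- Existence of a colouring avoiding all bad events `χ = b k` on `T k`, from the first moment with
respect to a biased product measure. -/
theorem exists_avoid {I K : Type} [Fintype I] [DecidableEq I] [Fintype K] (w : Bool → ℝ)
    (hw : ∀ b, 0 ≤ w b) (hs : w true + w false = 1)
    (T : K → Finset I) (b : K → Bool) (h : ∑ k, w (b k) ^ (T k).card < 1) :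
    ∃ χ : I → Bool, ∀ k, ∃ i ∈ T k, χ i ≠ b k := by
  classical
  by_contra hcon
  push Not at hcon
  have h1 : ∑ χ : I → Bool, ∏ i, w (χ i) = 1 := by
    rw [← Fintype.piFinset_univ, ← Finset.prod_univ_sum]
    simp [hs]
  have h2 : ∀ k, ∑ χ : I → Bool, (if (∀ i ∈ T k, χ i = b k) then ∏ i, w (χ i) else 0) =
      w (b k) ^ (T k).card := by
    intro k
    rw [← Finset.sum_filter]
    have e : univ.filter (fun χ : I → Bool => ∀ i ∈ T k, χ i = b k) =
        Fintype.piFinset (fun i => if i ∈ T k then {b k} else univ) := by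
      ext χ
      simp only [mem_filter, mem_univ, true_and, Fintype.mem_piFinset]
      apply forall_congr'
      intro i
      by_cases hi : i ∈ T k <;> simp [hi]
    rw [e, ← Finset.prod_univ_sum]
    have e2 : ∀ i : I, (∑ j ∈ (if i ∈ T k then ({b k} : Finset Bool) else univ), w j) =
        if i ∈ T k then w (b k) else 1 := by
      intro i
      by_cases hi : i ∈ T k
      · simp [hi]
      · simp [hi, hs]
    rw [Finset.prod_congr rfl (fun i _ => e2 i), Finset.prod_ite]
    simp
  have h3 : (1 : ℝ) ≤ ∑ k, w (b k) ^ (T k).card := by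
    calc (1 : ℝ) = ∑ χ : I → Bool, ∏ i, w (χ i) := h1.symm
      _ ≤ ∑ χ : I → Bool, ∑ k, (if (∀ i ∈ T k, χ i = b k) then ∏ i, w (χ i) else 0) := by
          apply Finset.sum_le_sum
          intro χ _
          obtain ⟨k, hk⟩ := hcon χ
          have hpos : ∀ k' ∈ (univ : Finset K),
              (0 : ℝ) ≤ (if (∀ i ∈ T k', χ i = b k') then ∏ i, w (χ i) else 0) := by
            intro k' _
            split_ifs
            · exact Finset.prod_nonneg fun i _ => hw _
            · exact le_rfl
          refine le_trans ?_ (Finset.single_le_sum hpos (mem_univ k))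
          rw [if_pos hk]
      _ = ∑ k, w (b k) ^ (T k).card := by
          rw [Finset.sum_comm]
          exact Finset.sum_congr rfl fun k _ => h2 k
  linarith

/-- the sign of a side -/
def sg (b : Bool) : ℝ := if b then 1 else -1

theorem same_eq (a b : Bool) : (if a = b then (1 : ℝ) else 0) = (1 + sg a * sg b) / 2 := by
  cases a <;> cases b <;> norm_num [sg]

theorem sum_same {α : Type} (A : Finset α) (side : α → Bool) :
    (A.card : ℝ) ^ 2 / 2 ≤ ∑ j ∈ A, ∑ k ∈ A, (if side j = side k then (1 : ℝ) else 0) := by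
  have h : ∑ j ∈ A, ∑ k ∈ A, (if side j = side k then (1 : ℝ) else 0) =
      ((A.card : ℝ) ^ 2 + (∑ j ∈ A, sg (side j)) ^ 2) / 2 := by
    simp only [same_eq]
    rw [sq (∑ j ∈ A, sg (side j)), Finset.sum_mul_sum]
    simp only [← Finset.sum_div, Finset.sum_add_distrib, Finset.sum_const, nsmul_eq_mul]
    ring
  rw [h]
  nlinarith [sq_nonneg (∑ j ∈ A, sg (side j))]

theorem sum_same_const {α : Type} (A : Finset α) (side : α → Bool) (s : Bool)
    (hs : ∀ j, side j = s) :
    (A.card : ℝ) ^ 2 ≤ ∑ j ∈ A, ∑ k ∈ A, (if side j = side k then (1 : ℝ) else 0) := by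
  simp only [hs, if_true, Finset.sum_const, nsmul_eq_mul]
  nlinarith

/-- pairs with equal sides, in terms of the ordered ones -/
theorem sum_lt {α : Type} [LinearOrder α] (A : Finset α) (side : α → Bool) :
    ∑ j ∈ A, ∑ k ∈ A, (if j < k ∧ side j = side k then (1 : ℝ) else 0) =
      (∑ j ∈ A, ∑ k ∈ A, (if side j = side k then (1 : ℝ) else 0) - A.card) / 2 := by
  have h1 : ∀ j k : α, (if side j = side k then (1 : ℝ) else 0) =
      (if j < k ∧ side j = side k then (1 : ℝ) else 0) +
      (if k < j ∧ side k = side j then (1 : ℝ) else 0) + (if j = k then 1 else 0) := by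
    intro j k
    rcases lt_trichotomy j k with h | h | h
    · have h2 : ¬ k < j := h.not_gt
      have h3 : j ≠ k := h.ne
      simp [h, h2, h3]
    · subst h
      simp
    · have h2 : ¬ j < k := h.not_gt
      have h3 : j ≠ k := h.ne'
      simp [h, h2, h3, eq_comm]
  have h2 : ∑ j ∈ A, ∑ k ∈ A, (if side j = side k then (1 : ℝ) else 0) =
      ∑ j ∈ A, ∑ k ∈ A, (if j < k ∧ side j = side k then (1 : ℝ) else 0) +
      ∑ j ∈ A, ∑ k ∈ A, (if k < j ∧ side k = side j then (1 : ℝ) else 0) + A.card := by
    rw [Finset.sum_congr rfl (fun j _ => Finset.sum_congr rfl (fun k _ => h1 j k))]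
    simp only [Finset.sum_add_distrib]
    congr 1
    have : ∀ j ∈ A, ∑ k ∈ A, (if j = k then (1 : ℝ) else 0) = 1 := by
      intro j hj
      rw [Finset.sum_ite_eq]
      simp [hj]
    rw [Finset.sum_congr rfl this]
    simp
  rw [Finset.sum_comm (f := fun j k => if k < j ∧ side k = side j then (1 : ℝ) else 0)] at h2
  rw [h2]
  ring

/-- the constrained triples -/
def trip (m : ℕ) (side : Fin m → Bool) : Finset (Fin m × Fin m × Fin m) :=
  univ.filter fun t => t.1 < t.2.1 ∧ t.2.1 < t.2.2 ∧ side t.2.1 = side t.2.2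

theorem card_trip (m : ℕ) (side : Fin m → Bool) (θ : ℝ)
    (hθ : ∀ A : Finset (Fin m), θ * (A.card : ℝ) ^ 2 ≤
      ∑ j ∈ A, ∑ k ∈ A, (if side j = side k then (1 : ℝ) else 0)) :
    θ * ((m : ℝ) * (m - 1) * (2 * m - 1) / 12) - (m : ℝ) * (m - 1) / 4 ≤ (trip m side).card := by
  classical
  have h1 : ((trip m side).card : ℝ) = ∑ i : Fin m, ∑ j ∈ univ.filter (fun j => i < j),
      ∑ k ∈ univ.filter (fun k => i < k), (if j < k ∧ side j = side k then (1 : ℝ) else 0) := by
    rw [trip, Finset.card_filter]
    push_cast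
    rw [Fintype.sum_prod_type]
    refine Finset.sum_congr rfl fun i _ => ?_
    rw [Fintype.sum_prod_type, Finset.sum_filter]
    refine Finset.sum_congr rfl fun j _ => ?_
    by_cases hj : i < j
    · rw [if_pos hj, Finset.sum_filter]
      refine Finset.sum_congr rfl fun k _ => ?_
      by_cases hk : i < k
      · simp [hj, hk]
      · have : ¬ j < k := fun h => hk (hj.trans h)
        simp [hk, this]
    · simp [hj]
  have h2 : ∀ i : Fin m, (univ.filter (fun j : Fin m => i < j)).card = m - 1 - i := by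
    intro i
    rw [Finset.filter_lt_eq_Ioi, Fin.card_Ioi]
  have h3 : ∀ i : Fin m, (θ * ((m - 1 - i : ℕ) : ℝ) ^ 2 - ((m - 1 - i : ℕ) : ℝ)) / 2 ≤
      ∑ j ∈ univ.filter (fun j => i < j),
      ∑ k ∈ univ.filter (fun k => i < k), (if j < k ∧ side j = side k then (1 : ℝ) else 0) := by
    intro i
    rw [sum_lt]
    have := hθ (univ.filter (fun j : Fin m => i < j))
    rw [h2] at this ⊢
    linarith
  rw [h1]
  refine le_trans (le_of_eq ?_) (Finset.sum_le_sum fun i _ => h3 i)
  rw [Fin.sum_univ_eq_sum_range (fun i => (θ * ((m - 1 - i : ℕ) : ℝ) ^ 2 - ((m - 1 - i : ℕ) : ℝ)) / 2)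
    m, Finset.sum_range_reflect (fun i => (θ * ((i : ℕ) : ℝ) ^ 2 - ((i : ℕ) : ℝ)) / 2) m]
  clear h1 h2 h3 hθ side
  induction m with
  | zero => simp
  | succ m ih =>
    rw [Finset.sum_range_succ, ← ih]
    push_cast
    ring

theorem card_trip_half (m : ℕ) (side : Fin m → Bool) :
    (m : ℝ) * (m - 1) * (2 * m - 7) / 24 ≤ (trip m side).card := by
  have := card_trip m side (1 / 2) (fun A => by
    have := sum_same A side
    linarith)
  linarith

theorem card_trip_const (m : ℕ) (side : Fin m → Bool) (s : Bool) (hs : ∀ j, side j = s) :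
    (m : ℝ) * (m - 1) * (m - 2) / 6 ≤ (trip m side).card := by
  have := card_trip m side 1 (fun A => by
    have := sum_same_const A side s hs
    linarith)
  linarith

end Pool.Agent.X80.GR
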