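import Pool.Agent.TH138.NF.HD

/-!
# Highest differing digits along a sequence, sorted sets
-/

set_option autoImplicit false

namespace Pool.Agent.X80.GR

open Finset Pool.Agent.TH138.NF

/-- the `i`-th smallest element -/
def sq (e : Finset ℕ) (i : ℕ) : ℕ := if h : i < e.card then e.orderEmbOfFin rfl ⟨i, h⟩ else 0

/-- the highest differing digits of neighbours -/
def dl (e : Finset ℕ) (i : ℕ) : ℕ := hd (sq e i) (sq e (i + 1))

theorem lt_of_step (x : ℕ → ℕ) (M : ℕ) (hx : ∀ i, i + 1 < M → x i < x (i + 1)) :
    ∀ i j, i < j → j < M → x i < x j := by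
  intro i j
  induction j with
  | zero => intro h; omega
  | succ j ih =>
    intro h1 h2
    have h3 := hx j h2
    rcases Nat.lt_or_ge i j with h4 | h4
    · exact (ih h4 (by omega)).trans h3
    · have : i = j := by omega
      subst this
      exact h3

theorem sq_mem {e : Finset ℕ} {i : ℕ} (h : i < e.card) : sq e i ∈ e := by
  rw [sq, dif_pos h]
  exact Finset.orderEmbOfFin_mem e rfl _

theorem sq_lt {e : Finset ℕ} {i j : ℕ} (h : i < j) (hj : j < e.card) : sq e i < sq e j := by
  rw [sq, sq, dif_pos hj, dif_pos (h.trans hj)]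
  exact (e.orderEmbOfFin rfl).strictMono h

theorem sq_image (e : Finset ℕ) : (range e.card).image (sq e) = e := by
  ext y
  simp only [mem_image, mem_range]
  constructor
  · rintro ⟨i, hi, rfl⟩
    exact sq_mem hi
  · intro hy
    have : y ∈ Set.range (e.orderEmbOfFin rfl) := by
      rw [Finset.range_orderEmbOfFin]
      exact hy
    obtain ⟨i, rfl⟩ := this
    refine ⟨i, i.2, ?_⟩
    rw [sq, dif_pos i.2]

theorem card_im (x : ℕ → ℕ) (t : ℕ) (hx : ∀ i j, i < j → j < t → x i < x j) :
    ((range t).image x).card = t := by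
  rw [Finset.card_image_of_injOn, card_range]
  intro i hi j hj hij
  simp only [coe_range, Set.mem_Iio] at hi hj
  rcases lt_trichotomy i j with h | h | h
  · exact absurd hij (hx i j h hj).ne
  · exact h
  · exact absurd hij (hx j i h hi).ne'

theorem sq_im (x : ℕ → ℕ) (t : ℕ) (hx : ∀ i j, i < j → j < t → x i < x j) (i : ℕ) (hi : i < t) :
    sq ((range t).image x) i = x i := by
  have hc := card_im x t hx
  have h1 : (fun i : Fin t => x i) = ((range t).image x).orderEmbOfFin hc := by
    apply Finset.orderEmbOfFin_unique hc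
    · intro i
      exact mem_image_of_mem _ (mem_range.2 i.2)
    · intro i j hij
      exact hx i j hij j.2
  rw [sq, dif_pos (by omega)]
  have h2 : ((range t).image x).orderEmbOfFin rfl ⟨i, by omega⟩ =
      ((range t).image x).orderEmbOfFin hc ⟨i, hi⟩ := by
    rw [Finset.orderEmbOfFin_eq_orderEmbOfFin_iff]
  rw [h2, ← h1]

/-- the highest differing digit of two terms of an increasing sequence is the maximum of those of
the neighbours between them -/
theorem hd_max_seq (x : ℕ → ℕ) (M : ℕ) (hx : ∀ i, i + 1 < M → x i < x (i + 1)) (a : ℕ) :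
    ∀ b, a < b → b < M → (∀ i, a ≤ i → i < b → hd (x i) (x (i + 1)) ≤ hd (x a) (x b)) ∧
      ∃ i, a ≤ i ∧ i < b ∧ hd (x a) (x b) = hd (x i) (x (i + 1)) := by
  intro b
  induction b with
  | zero => intro h; omega
  | succ b ih =>
    intro h1 h2
    rcases Nat.lt_or_ge a b with h | h
    · obtain ⟨h3, i, hi1, hi2, hi3⟩ := ih h (by omega)
      have h4 := hd_max (lt_of_step x M hx a b h (by omega)) (hx b h2)
      constructor
      · intro j hj1 hj2
        rw [h4]
        rcases Nat.lt_or_ge j b with h5 | h5
        · exact (h3 j hj1 h5).trans (le_max_left _ _)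
        · have : j = b := by omega
          subst this
          exact le_max_right _ _
      · rw [h4]
        rcases le_total (hd (x a) (x b)) (hd (x b) (x (b + 1))) with h5 | h5
        · exact ⟨b, by omega, by omega, max_eq_right h5⟩
        · exact ⟨i, hi1, by omega, by rw [max_eq_left h5]; exact hi3⟩
    · have : a = b := by omega
      subst this
      refine ⟨fun i hi1 hi2 => ?_, a, le_rfl, by omega, rfl⟩
      have : i = a := by omega
      subst this
      exact le_rfl

/-- evaluation by the position of the maximum -/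
theorem hd_eq_of_max (x : ℕ → ℕ) (M : ℕ) (hx : ∀ i, i + 1 < M → x i < x (i + 1)) (a b c : ℕ)
    (hac : a ≤ c) (hcb : c < b) (hb : b < M)
    (h : ∀ i, a ≤ i → i < b → hd (x i) (x (i + 1)) ≤ hd (x c) (x (c + 1))) :
    hd (x a) (x b) = hd (x c) (x (c + 1)) := by
  obtain ⟨h1, i, hi1, hi2, hi3⟩ := hd_max_seq x M hx a b (by omega) hb
  apply le_antisymm
  · rw [hi3]
    exact h i hi1 hi2
  · exact h1 c hac hcb

/-- all sets of `k` elements of `S` have colour `b` -/
def Hom (k : ℕ) (c : Finset ℕ → Bool) (S : Finset ℕ) (b : Bool) : Prop :=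
  ∀ e ⊆ S, e.card = k → c e = b

/-- there is a colouring of the `k`-sets below `N` without homogeneous set of size `n` -/
def Good (k n N : ℕ) : Prop :=
  ∃ c : Finset ℕ → Bool, ∀ S ⊆ range N, S.card = n → ∀ b, ¬ Hom k c S b

/-- the colour of the set given by an increasing choice of indices -/
theorem hom_apply {k : ℕ} {c : Finset ℕ → Bool} {S : Finset ℕ} {b : Bool} (h : Hom k c S b)
    (g : ℕ → ℕ) (hg : ∀ i, i + 1 < k → g i < g (i + 1)) (hlt : ∀ i, i < k → g i < S.card) :
    c ((range k).image fun i => sq S (g i)) = b ∧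
      ∀ i, i < k → sq ((range k).image fun i => sq S (g i)) i = sq S (g i) := by
  have hx : ∀ i j, i < j → j < k → sq S (g i) < sq S (g j) := by
    intro i j hij hj
    exact sq_lt (lt_of_step g k hg i j hij hj) (hlt j hj)
  refine ⟨h _ ?_ (card_im _ k hx), fun i hi => sq_im _ k hx i hi⟩
  intro y hy
  obtain ⟨i, hi, rfl⟩ := mem_image.1 hy
  exact sq_mem (hlt i (mem_range.1 hi))

end Pool.Agent.X80.GR
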