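import Pool.Agent.X80.GR.Base

/-!
# From `k`-sets to `(k + 1)`-sets, `k ≥ 4`
-/

set_option autoImplicit false

namespace Pool.Agent.X80.GR

open Finset Pool.Agent.TH138.NF

/-- the rule for `k ≥ 4` highest differing digits `D 0, …, D (k - 1)` -/
def ruleS (k : ℕ) (c : Finset ℕ → Bool) (D : ℕ → ℕ) : Bool :=
  if D 0 < D 1 ∧ D 2 < D 1 then true
  else if D 1 < D 0 ∧ D 1 < D 2 then false
  else if D 0 < D 1 ∧ D 1 < D 2 ∧ D 3 < D 2 then false
  else if D 1 < D 0 ∧ D 2 < D 1 ∧ D 2 < D 3 then true
  else c ((range k).image D)

theorem ruleS_congr {k : ℕ} (hk : 4 ≤ k) (c : Finset ℕ → Bool) {D D' : ℕ → ℕ}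
    (h : ∀ i, i < k → D i = D' i) : ruleS k c D = ruleS k c D' := by
  have h5 : (range k).image D = (range k).image D' := by
    apply Finset.image_congr
    intro i hi
    exact h i (by simpa using hi)
  rw [ruleS, ruleS, h 0 (by omega), h 1 (by omega), h 2 (by omega), h 3 (by omega), h5]

theorem many {k : ℕ} (hk : 4 ≤ k) {c : Finset ℕ → Bool} {S : Finset ℕ} {β : Bool}
    (h : Hom (k + 1) (fun e => ruleS k c (dl e)) S β) (g : ℕ → ℕ)
    (hg : ∀ i, i < k → g i < g (i + 1)) (hlt : ∀ i, i ≤ k → g i < S.card) :
    ruleS k c (fun i => hd (sq S (g i)) (sq S (g (i + 1)))) = β := by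
  obtain ⟨h1, h2⟩ := hom_apply h g (fun i hi => hg i (by omega)) (fun i hi => hlt i (by omega))
  rw [← h1]
  apply ruleS_congr hk
  intro i hi
  rw [dl, h2 i (by omega), h2 (i + 1) (by omega)]

theorem step (k n N : ℕ) (hk : 4 ≤ k) (h : Good k n N) : Good (k + 1) (n + k) (2 ^ N) := by
  obtain ⟨c, hc⟩ := h
  refine ⟨fun e => ruleS k c (dl e), fun S hS hcard β hH => ?_⟩
  have many' := many hk hH
  obtain ⟨x, hxdef⟩ : ∃ x, x = sq S := ⟨_, rfl⟩
  rw [← hxdef] at many'
  rw [hcard] at many'
  have hx : ∀ i, i + 1 < n + k → x i < x (i + 1) := by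
    intro i hi
    rw [hxdef]
    exact sq_lt (Nat.lt_succ_self i) (by omega)
  have hxN : ∀ i, i < n + k → x i < 2 ^ N := by
    intro i hi
    rw [hxdef]
    exact mem_range.1 (hS (sq_mem (by omega)))
  obtain ⟨δ, hδ⟩ : ∃ δ : ℕ → ℕ, ∀ i, δ i = hd (x i) (x (i + 1)) := ⟨_, fun i => rfl⟩
  have hδN : ∀ i, i + 1 < n + k → δ i < N := by
    intro i hi
    rw [hδ]
    exact hd_lt (hx i (by omega)) (hxN _ (by omega))
  have hne : ∀ i, i + 2 < n + k → δ i ≠ δ (i + 1) := by
    intro i hi
    rw [hδ, hδ]
    exact hd_ne (hx i (by omega)) (hx (i + 1) (by omega))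
  have hmax : ∀ a b c, a ≤ c → c < b → b < n + k → (∀ i, a ≤ i → i < b → δ i ≤ δ c) →
      hd (x a) (x b) = δ c := by
    intro a b c h1 h2 h3 h4
    rw [hδ c]
    apply hd_eq_of_max x (n + k) hx a b c h1 h2 h3
    intro i hi1 hi2
    rw [← hδ, ← hδ]
    exact h4 i hi1 hi2
  -- windows
  have hwin : ∀ a, a < n → ruleS k c (fun i => δ (a + i)) = β := by
    intro a ha
    rw [← many' (fun i => a + i) (fun i hi => by omega) (fun i hi => by omega)]
    apply ruleS_congr hk
    intro i hi
    rw [hδ]
    rfl
  have hext : ∀ a, 1 ≤ a → a < n → (δ a < δ (a + 1) ↔ δ (a + 1) < δ (a + 2)) := by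
    intro a ha1 ha2
    obtain ⟨a, rfl⟩ : ∃ a', a = a' + 1 := ⟨a - 1, by omega⟩
    have w1 := hwin (a + 1) ha2
    have w0 := hwin a (by omega)
    simp only [ruleS, Nat.add_zero, Nat.add_assoc, Nat.reduceAdd] at w1 w0 ⊢
    have n0 := hne a (by omega)
    have n1 := hne (a + 1) (by omega)
    have n2 := hne (a + 2) (by omega)
    simp only [Nat.add_assoc, Nat.reduceAdd] at n1 n2
    constructor
    · intro h1
      by_contra h2
      have h3 : δ (a + 3) < δ (a + 2) := by omega
      rw [if_pos ⟨h1, h3⟩] at w1
      rw [← w1] at w0
      rcases Nat.lt_or_gt_of_ne n0 with h4 | h4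
      · rw [if_neg (by omega), if_neg (by omega), if_pos ⟨h4, h1, h3⟩] at w0
        exact absurd w0 (by simp)
      · rw [if_neg (by omega), if_pos ⟨h4, h1⟩] at w0
        exact absurd w0 (by simp)
    · intro h1
      by_contra h2
      have h3 : δ (a + 2) < δ (a + 1) := by omega
      rw [if_neg (by omega), if_pos ⟨h3, h1⟩] at w1
      rw [← w1] at w0
      rcases Nat.lt_or_gt_of_ne n0 with h4 | h4
      · rw [if_pos ⟨h4, h3⟩] at w0
        exact absurd w0 (by simp)
      · rw [if_neg (by omega), if_neg (by omega), if_neg (by omega), if_pos ⟨h4, h3, h1⟩] at w0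
        exact absurd w0 (by simp)
  -- the empty case
  rcases Nat.eq_zero_or_pos n with hn0 | hn0
  · subst hn0
    exact hc ∅ (by simp) rfl β (fun e he hek => by
      rw [Finset.subset_empty] at he
      subst he
      simp at hek
      omega)
  have hmono : (∀ i, 1 ≤ i → i ≤ n → δ i < δ (i + 1)) ∨ (∀ i, 1 ≤ i → i ≤ n → δ (i + 1) < δ i) := by
    rcases Nat.lt_or_gt_of_ne (hne 1 (by omega)) with h1 | h1
    · left
      intro i hi
      induction i, hi using Nat.le_induction with
      | base => intro _; exact h1
      | succ i hi ih =>
        intro h2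
        exact (hext i hi (by omega)).1 (ih (by omega))
    · right
      have key : ∀ i, 1 ≤ i → i ≤ n → ¬ δ i < δ (i + 1) := by
        intro i hi
        induction i, hi using Nat.le_induction with
        | base => intro _; omega
        | succ i hi ih =>
          intro h2 h3
          exact ih (by omega) ((hext i hi (by omega)).2 h3)
      intro i hi1 hi2
      have := key i hi1 hi2
      have := hne i (by omega)
      omega
  rcases hmono with hinc | hdec
  · have hI : ∀ i j, 1 ≤ i → i < j → j ≤ n → δ i < δ j := by
      intro i j hi
      induction j with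
      | zero => intro h; omega
      | succ j ih =>
        intro h1 h2
        rcases Nat.lt_or_ge i j with h5 | h5
        · exact (ih h5 (by omega)).trans (hinc j (by omega) (by omega))
        · have : i = j := by omega
          subst this
          exact hinc i hi (by omega)
    refine hc ((range n).image fun i => δ (i + 1)) ?_ ?_ β ?_
    · intro y hy
      obtain ⟨i, hi, rfl⟩ := mem_image.1 hy
      exact mem_range.2 (hδN _ (by have := mem_range.1 hi; omega))
    · exact card_im (fun i => δ (i + 1)) n (fun i j hij hj => hI _ _ (by omega) (by omega) (by omega))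
    · intro e he hek
      -- indices of the elements of `e`
      have hsq : ∀ i, i < k → ∃ j, 1 ≤ j ∧ j ≤ n ∧ δ j = sq e i := by
        intro i hi
        have h1 : sq e i ∈ e := sq_mem (by omega)
        obtain ⟨j, hj, h2⟩ := mem_image.1 (he h1)
        exact ⟨j + 1, by omega, by have := mem_range.1 hj; omega, h2⟩
      choose! ix ix1 ix2 ix3 using hsq
      have hix : ∀ i j, i < j → j < k → ix i < ix j := by
        intro i j hij hj
        have h1 : δ (ix i) < δ (ix j) := by
          rw [ix3 i (by omega), ix3 j hj]
          exact sq_lt hij (by omega)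
        by_contra hcon
        rcases Nat.lt_or_ge (ix j) (ix i) with h2 | h2
        · have := hI _ _ (ix1 j hj) h2 (ix2 i (by omega))
          omega
        · have : ix i = ix j := by omega
          rw [this] at h1
          omega
      have hm := many' (fun i => if i = 0 then ix 0 else ix (i - 1) + 1) (by
        intro i hi
        rcases Nat.eq_zero_or_pos i with h0 | h0
        · subst h0
          simp
        · have := hix (i - 1) i (by omega) hi
          simp only [Nat.add_eq_zero_iff, one_ne_zero, and_false, if_false,
            Nat.add_sub_cancel]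
          rw [if_neg (by omega)]
          omega) (by
        intro i hi
        rcases Nat.eq_zero_or_pos i with h0 | h0
        · subst h0
          have := ix2 0 (by omega)
          simp only [if_true]
          omega
        · have := ix2 (i - 1) (by omega)
          rw [if_neg (by omega)]
          omega)
      have hD : ∀ i, i < k → hd (x (if i = 0 then ix 0 else ix (i - 1) + 1))
          (x (if i + 1 = 0 then ix 0 else ix (i + 1 - 1) + 1)) = sq e i := by
        intro i hi
        rw [if_neg (by omega : ¬ i + 1 = 0), Nat.add_sub_cancel, ← ix3 i hi]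
        have b1 := ix1 i hi
        have b2 := ix2 i hi
        rcases Nat.eq_zero_or_pos i with h0 | h0
        · subst h0
          rw [if_pos rfl]
          exact (hδ _).symm
        · rw [if_neg (by omega)]
          have b3 := hix (i - 1) i (by omega) hi
          have b4 := ix1 (i - 1) (by omega)
          apply hmax _ _ _ (by omega) (by omega) (by omega)
          intro l h1 h2
          rcases Nat.lt_or_ge l (ix i) with h5 | h5
          · exact (hI l (ix i) (by omega) h5 b2).le
          · have : l = ix i := by omega
            rw [this]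
      rw [ruleS_congr hk c hD] at hm
      have s01 : sq e 0 < sq e 1 := sq_lt (by omega) (by omega)
      have s12 : sq e 1 < sq e 2 := sq_lt (by omega) (by omega)
      have s23 : sq e 2 < sq e 3 := sq_lt (by omega) (by omega)
      rw [ruleS, if_neg (by omega), if_neg (by omega), if_neg (by omega), if_neg (by omega),
        ← hek, sq_image] at hm
      exact hm
  · have hI : ∀ i j, 1 ≤ i → i < j → j ≤ n → δ j < δ i := by
      intro i j hi
      induction j with
      | zero => intro h; omega
      | succ j ih =>
        intro h1 h2
        rcases Nat.lt_or_ge i j with h5 | h5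
        · exact (hdec j (by omega) (by omega)).trans (ih h5 (by omega))
        · have : i = j := by omega
          subst this
          exact hdec i hi (by omega)
    refine hc ((range n).image fun i => δ (n - i)) ?_ ?_ β ?_
    · intro y hy
      obtain ⟨i, hi, rfl⟩ := mem_image.1 hy
      exact mem_range.2 (hδN _ (by have := mem_range.1 hi; omega))
    · exact card_im (fun i => δ (n - i)) n (fun i j hij hj => hI _ _ (by omega) (by omega) (by omega))
    · intro e he hek
      have hsq : ∀ i, i < k → ∃ j, 1 ≤ j ∧ j ≤ n ∧ δ j = sq e i := by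
        intro i hi
        have h1 : sq e i ∈ e := sq_mem (by omega)
        obtain ⟨j, hj, h2⟩ := mem_image.1 (he h1)
        have := mem_range.1 hj
        exact ⟨n - j, by omega, by omega, h2⟩
      choose! ix ix1 ix2 ix3 using hsq
      have hix : ∀ i j, i < j → j < k → ix j < ix i := by
        intro i j hij hj
        have h1 : δ (ix i) < δ (ix j) := by
          rw [ix3 i (by omega), ix3 j hj]
          exact sq_lt hij (by omega)
        by_contra hcon
        rcases Nat.lt_or_ge (ix i) (ix j) with h2 | h2
        · have := hI _ _ (ix1 i (by omega)) h2 (ix2 j (by omega))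
          omega
        · have : ix i = ix j := by omega
          rw [this] at h1
          omega
      have hm := many' (fun i => if i = k then ix 0 + 1 else ix (k - 1 - i)) (by
        intro i hi
        rw [if_neg (by omega)]
        rcases Nat.lt_or_ge (i + 1) k with h0 | h0
        · rw [if_neg (by omega)]
          exact hix _ _ (by omega) (by omega)
        · rw [if_pos (by omega), show k - 1 - i = 0 by omega]
          omega) (by
        intro i hi
        rcases Nat.lt_or_ge i k with h0 | h0
        · rw [if_neg (by omega)]
          have := ix2 (k - 1 - i) (by omega)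
          omega
        · rw [if_pos (by omega)]
          have := ix2 0 (by omega)
          omega)
      have hD : ∀ i, i < k → hd (x (if i = k then ix 0 + 1 else ix (k - 1 - i)))
          (x (if i + 1 = k then ix 0 + 1 else ix (k - 1 - (i + 1)))) = sq e (k - 1 - i) := by
        intro i hi
        rw [if_neg (by omega : ¬ i = k), ← ix3 (k - 1 - i) (by omega)]
        have b1 := ix1 (k - 1 - i) (by omega)
        have b2 := ix2 (k - 1 - i) (by omega)
        rcases Nat.lt_or_ge (i + 1) k with h0 | h0
        · rw [if_neg (by omega)]
          have b3 := hix (k - 1 - (i + 1)) (k - 1 - i) (by omega) (by omega)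
          have b4 := ix2 (k - 1 - (i + 1)) (by omega)
          apply hmax _ _ _ le_rfl b3 (by omega)
          intro l h1 h2
          rcases Nat.lt_or_ge (ix (k - 1 - i)) l with h5 | h5
          · exact (hI (ix (k - 1 - i)) l b1 h5 (by omega)).le
          · have : l = ix (k - 1 - i) := by omega
            rw [this]
        · rw [if_pos (by omega), show k - 1 - i = 0 by omega]
          exact (hδ _).symm
      rw [ruleS_congr hk c hD] at hm
      have s01 : sq e (k - 1 - 1) < sq e (k - 1 - 0) := sq_lt (by omega) (by omega)
      have s12 : sq e (k - 1 - 2) < sq e (k - 1 - 1) := sq_lt (by omega) (by omega)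
      have s23 : sq e (k - 1 - 3) < sq e (k - 1 - 2) := sq_lt (by omega) (by omega)
      rw [ruleS, if_neg (by omega), if_neg (by omega), if_neg (by omega), if_neg (by omega)] at hm
      have him : (range k).image (fun i => sq e (k - 1 - i)) = e := by
        conv_rhs => rw [← sq_image e]
        rw [hek]
        ext y
        simp only [mem_image, mem_range]
        constructor
        · rintro ⟨i, hi, rfl⟩
          exact ⟨k - 1 - i, by omega, rfl⟩
        · rintro ⟨i, hi, rfl⟩
          exact ⟨k - 1 - i, by omega, by rw [show k - 1 - (k - 1 - i) = i by omega]⟩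
      rw [him] at hm
      exact hm

end Pool.Agent.X80.GR
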